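import Pool.Agent.Helper88.CG.Goals

/-!
# Packet CG-RB: primes modulo `k p` relative to modulo `k`, on average over `p`
-/

set_option autoImplicit false

open Finset Filter Topology

open scoped Classical

namespace Pool.Agent.Helper58.CG

open Pool.Agent.Helper88.CG

/-! ## The tent and the local weight -/

theorem tw_nonneg (x n : ℕ) : 0 ≤ tw x n := le_max_left _ _

theorem log4_pos : 0 < Real.log 4 := Real.log_pos (by norm_num)

theorem tw_le_one (x n : ℕ) : tw x n ≤ 1 := by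
  unfold tw
  refine max_le zero_le_one ?_
  have h : 0 ≤ |Real.log (4 * n / x)| / Real.log 4 := div_nonneg (abs_nonneg _) log4_pos.le
  linarith

theorem tw_large {x n : ℕ} (hx : 1 ≤ x) (h : x ≤ n) : tw x n = 0 := by
  unfold tw
  refine max_eq_left ?_
  have hxr : (0 : ℝ) < x := by exact_mod_cast hx
  have hnr : (x : ℝ) ≤ n := by exact_mod_cast h
  have h1 : Real.log 4 ≤ Real.log (4 * n / x) := by
    refine Real.log_le_log (by norm_num) ?_
    rw [le_div_iff₀ hxr]
    nlinarith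
  have h2 : 1 ≤ |Real.log (4 * n / x)| / Real.log 4 := by
    rw [le_div_iff₀ log4_pos, one_mul]
    exact h1.trans (le_abs_self _)
  linarith

theorem tw_small {x n : ℕ} (hn : 1 ≤ n) (h : 16 * n ≤ x) : tw x n = 0 := by
  unfold tw
  refine max_eq_left ?_
  have hnr : (0 : ℝ) < n := by exact_mod_cast hn
  have hxr : (16 : ℝ) * n ≤ x := by exact_mod_cast h
  have hx0 : (0 : ℝ) < x := by linarith
  have h1 : Real.log (4 * n / x) ≤ - Real.log 4 := by
    rw [← Real.log_inv]
    refine Real.log_le_log (by positivity) ?_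
    rw [div_le_iff₀ hx0]
    linarith
  have h2 : 1 ≤ |Real.log (4 * n / x)| / Real.log 4 := by
    rw [le_div_iff₀ log4_pos, one_mul]
    have := neg_le_abs (Real.log (4 * n / x))
    linarith
  linarith

theorem dl_abs {k p a n : ℕ} (hp : 2 ≤ p) : |dl k p a n| ≤ 1 := by
  unfold dl
  have hpr : (2 : ℝ) ≤ p := by exact_mod_cast hp
  have h1 : (0 : ℝ) < (p : ℝ) - 1 := by linarith
  have h2 : (0 : ℝ) ≤ (if n ≡ a [MOD k * p] then (1 : ℝ) else 0) ∧
      (if n ≡ a [MOD k * p] then (1 : ℝ) else 0) ≤ 1 := by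
    split_ifs <;> norm_num
  have h3 : (0 : ℝ) ≤ (if n ≡ a [MOD k] ∧ ¬ p ∣ n then (1 : ℝ) else 0) / ((p : ℝ) - 1) ∧
      (if n ≡ a [MOD k] ∧ ¬ p ∣ n then (1 : ℝ) else 0) / ((p : ℝ) - 1) ≤ 1 := by
    constructor
    · refine div_nonneg ?_ h1.le
      split_ifs <;> norm_num
    · rw [div_le_one h1]
      have : (if n ≡ a [MOD k] ∧ ¬ p ∣ n then (1 : ℝ) else 0) ≤ 1 := by
        split_ifs <;> norm_num
      linarith
  rw [abs_le]
  constructor
  · linarith [h2.1, h3.2]
  · linarith [h2.2, h3.1]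

/-! ## Sums over divisors -/

theorem sum_div_swap (x : ℕ) (G : ℕ → ℕ → ℝ) (hG : ∀ b d, x < b * d → G b d = 0) :
    ∑ n ∈ Icc 1 x, ∑ b ∈ n.divisors, G b (n / b) = ∑ b ∈ Icc 1 x, ∑ d ∈ Icc 1 x, G b d := by
  have h1 : ∀ n ∈ Icc 1 x, ∑ b ∈ n.divisors, G b (n / b) =
      ∑ b ∈ Icc 1 x, if b ∣ n then G b (n / b) else 0 := by
    intro n hn
    rw [← Finset.sum_filter]
    refine Finset.sum_congr ?_ fun _ _ => rfl
    ext b
    rw [Nat.mem_divisors, mem_filter, mem_Icc]
    rw [mem_Icc] at hn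
    constructor
    · rintro ⟨h, h0⟩
      exact ⟨⟨Nat.pos_of_dvd_of_pos h (by omega), (Nat.le_of_dvd (by omega) h).trans hn.2⟩, h⟩
    · rintro ⟨_, h⟩
      exact ⟨h, by omega⟩
  rw [Finset.sum_congr rfl h1, Finset.sum_comm]
  refine Finset.sum_congr rfl fun b hb => ?_
  rw [mem_Icc] at hb
  have h2 : ∑ d ∈ Icc 1 x, G b d = ∑ d ∈ (Icc 1 x).filter (fun d => b * d ≤ x), G b d := by
    refine (Finset.sum_filter_of_ne fun d _ hd => ?_).symm
    by_contra hlt
    exact hd (hG b d (by omega))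
  rw [h2, ← Finset.sum_filter]
  refine Finset.sum_nbij' (fun n => n / b) (fun d => b * d) ?_ ?_ ?_ ?_ ?_
  · intro n hn
    rw [mem_filter, mem_Icc] at hn
    obtain ⟨⟨h1, h2⟩, c, rfl⟩ := hn
    have hb0 : 0 < b := hb.1
    rw [Nat.mul_div_cancel_left _ hb0, mem_filter, mem_Icc]
    have hc : 0 < c := by
      rcases Nat.eq_zero_or_pos c with h | h
      · subst h; simp at h1
      · exact h
    refine ⟨⟨hc, ?_⟩, h2⟩
    exact (Nat.le_mul_of_pos_left c hb0).trans h2
  · intro d hd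
    rw [mem_filter, mem_Icc] at hd
    rw [mem_filter, mem_Icc]
    refine ⟨⟨?_, hd.2⟩, Dvd.intro _ rfl⟩
    exact Nat.mul_pos hb.1 hd.1.1
  · intro n hn
    rw [mem_filter] at hn
    exact Nat.mul_div_cancel' hn.2
  · intro d hd
    exact Nat.mul_div_cancel_left _ hb.1
  · intro n hn
    rfl

theorem sum_dyadic (F : ℕ → ℝ) (U K : ℕ) :
    ∑ c ∈ Ioc U (U * 2 ^ K), F c = ∑ i ∈ range K, ∑ c ∈ Ioc (U * 2 ^ i) (2 * (U * 2 ^ i)), F c := by
  induction K with
  | zero => simp
  | succ K ih =>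
    rw [Finset.sum_range_succ, ← ih]
    have h1 : U * 2 ^ (K + 1) = 2 * (U * 2 ^ K) := by ring
    rw [h1]
    refine (Finset.sum_Ioc_consecutive F ?_ ?_).symm
    · exact Nat.le_mul_of_pos_right _ (by positivity)
    · omega

/-! ## Vaughan's identity, summed -/

/-- the second coefficient of the bilinear form -/
noncomputable def gV (V m : ℕ) : ℝ :=
  ∑ b ∈ m.divisors.filter (fun b => V < b), (ArithmeticFunction.moebius b : ℝ)

theorem gV_small {V m : ℕ} (h : m ≤ V) : gV V m = 0 := by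
  unfold gV
  refine Finset.sum_eq_zero fun b hb => ?_
  rw [mem_filter, Nat.mem_divisors] at hb
  have := Nat.le_of_dvd (Nat.pos_of_ne_zero hb.1.2) hb.1.1
  omega

theorem moebius_abs (b : ℕ) : |(ArithmeticFunction.moebius b : ℝ)| ≤ 1 := by
  exact_mod_cast ArithmeticFunction.abs_moebius_le_one

theorem gV_sq (V m : ℕ) : gV V m ^ 2 ≤ (m.divisors.card : ℝ) ^ 2 := by
  refine sq_le_sq' ?_ ?_
  all_goals
    have h1 : |gV V m| ≤ m.divisors.card := by
      unfold gV
      refine (Finset.abs_sum_le_sum_abs _ _).trans ?_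
      refine (Finset.sum_le_card_nsmul _ _ 1 fun b _ => moebius_abs b).trans ?_
      rw [nsmul_eq_mul, mul_one]
      exact_mod_cast Finset.card_filter_le _ _
    have h2 := abs_le.1 h1
  · exact h2.1
  · exact h2.2

theorem vaughan (hVI : StmtVI) {x U V K : ℕ} (hV : 1 ≤ V) (hU : 1 ≤ U) (hUx : U ≤ x)
    (hVx : V ≤ x) (hK : x < 2 ^ K) (D : ℕ → ℝ) (hD1 : ∀ n, x < n → D n = 0)
    (hD2 : ∀ n, 1 ≤ n → n ≤ U → D n = 0) :
    ∑ n ∈ Icc 1 x, ArithmeticFunction.vonMangoldt n * D n =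
      (∑ b ∈ Icc 1 V, (ArithmeticFunction.moebius b : ℝ) *
        ∑ d ∈ Icc 1 x, Real.log d * D (b * d))
      - (∑ b ∈ Icc 1 V, ∑ c ∈ Icc 1 U, (ArithmeticFunction.moebius b : ℝ) *
          ArithmeticFunction.vonMangoldt c * ∑ d ∈ Icc 1 x, D (b * c * d))
      + ∑ i ∈ range K, ∑ j ∈ range K, ∑ c ∈ Ioc (U * 2 ^ i) (2 * (U * 2 ^ i)),
          ∑ m ∈ Ioc (V * 2 ^ j) (2 * (V * 2 ^ j)),
            ArithmeticFunction.vonMangoldt c * gV V m * D (c * m) := by
  set G1 : ℕ → ℕ → ℝ := fun b d =>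
    if b ≤ V then (ArithmeticFunction.moebius b : ℝ) * Real.log d * D (b * d) else 0 with hG1
  set G2 : ℕ → ℕ → ℝ := fun b d => if b ≤ V then
    ∑ c ∈ d.divisors.filter (fun c => c ≤ U), (ArithmeticFunction.moebius b : ℝ) *
      ArithmeticFunction.vonMangoldt c * D (b * d) else 0 with hG2
  set G3 : ℕ → ℕ → ℝ := fun c m =>
    if U < c then ArithmeticFunction.vonMangoldt c * gV V m * D (c * m) else 0 with hG3
  have hpt : ∀ n ∈ Icc 1 x, ArithmeticFunction.vonMangoldt n * D n =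
      ∑ b ∈ n.divisors, G1 b (n / b) - ∑ b ∈ n.divisors, G2 b (n / b)
        + ∑ b ∈ n.divisors, G3 b (n / b) := by
    intro n hn
    rw [mem_Icc] at hn
    have hbn : ∀ b ∈ n.divisors, b * (n / b) = n := fun b hb =>
      Nat.mul_div_cancel' (Nat.dvd_of_mem_divisors hb)
    have e1 : ∑ b ∈ n.divisors, G1 b (n / b) =
        (∑ b ∈ n.divisors.filter (fun b => b ≤ V),
          (ArithmeticFunction.moebius b : ℝ) * Real.log ((n / b : ℕ) : ℝ)) * D n := by
      rw [Finset.sum_mul, Finset.sum_filter]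
      refine Finset.sum_congr rfl fun b hb => ?_
      simp only [hG1, hbn b hb]
    have e2 : ∑ b ∈ n.divisors, G2 b (n / b) =
        (∑ b ∈ n.divisors.filter (fun b => b ≤ V),
          ∑ c ∈ (n / b).divisors.filter (fun c => c ≤ U),
          (ArithmeticFunction.moebius b : ℝ) * ArithmeticFunction.vonMangoldt c) * D n := by
      rw [Finset.sum_mul, Finset.sum_filter]
      refine Finset.sum_congr rfl fun b hb => ?_
      simp only [hG2, hbn b hb, Finset.sum_mul]
    have e3 : ∑ b ∈ n.divisors, G3 b (n / b) =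
        (∑ c ∈ n.divisors.filter (fun c => U < c), ArithmeticFunction.vonMangoldt c *
          ∑ b ∈ (n / c).divisors.filter (fun b => V < b),
            (ArithmeticFunction.moebius b : ℝ)) * D n := by
      rw [Finset.sum_mul, Finset.sum_filter]
      refine Finset.sum_congr rfl fun b hb => ?_
      simp only [hG3, hbn b hb, gV]
    rw [e1, e2, e3]
    rcases le_or_gt n U with h | h
    · rw [hD2 n hn.1 h]
      ring
    · rw [hVI U V n hV h]
      ring
  rw [Finset.sum_congr rfl hpt, Finset.sum_add_distrib, Finset.sum_sub_distrib,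
    sum_div_swap x G1 ?_, sum_div_swap x G2 ?_, sum_div_swap x G3 ?_]
  · congr 1
    · congr 1
      · rw [← Finset.sum_subset (Finset.Icc_subset_Icc_right hVx)]
        · refine Finset.sum_congr rfl fun b hb => ?_
          rw [mem_Icc] at hb
          rw [Finset.mul_sum]
          refine Finset.sum_congr rfl fun d _ => ?_
          simp only [hG1, if_pos hb.2]
          ring
        · intro b hb hb'
          rw [mem_Icc] at hb hb'
          refine Finset.sum_eq_zero fun d _ => ?_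
          simp only [hG1]
          rw [if_neg (by omega)]
      · rw [← Finset.sum_subset (Finset.Icc_subset_Icc_right hVx)]
        · refine Finset.sum_congr rfl fun b hb => ?_
          rw [mem_Icc] at hb
          obtain ⟨H, hH⟩ : ∃ H : ℕ → ℕ → ℝ, H = fun c e : ℕ => if c ≤ U then
              (ArithmeticFunction.moebius b : ℝ) * ArithmeticFunction.vonMangoldt c *
                D (b * (c * e)) else 0 := ⟨_, rfl⟩
          have h1 : ∀ d ∈ Icc 1 x, G2 b d = ∑ c ∈ d.divisors, H c (d / c) := by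
            intro d _
            simp only [hG2, if_pos hb.2, hH]
            rw [Finset.sum_filter]
            refine Finset.sum_congr rfl fun c hc => ?_
            rw [Nat.mul_div_cancel' (Nat.dvd_of_mem_divisors hc)]
          rw [Finset.sum_congr rfl h1, sum_div_swap x H]
          · rw [← Finset.sum_subset (Finset.Icc_subset_Icc_right hUx)]
            · refine Finset.sum_congr rfl fun c hc => ?_
              rw [mem_Icc] at hc
              rw [Finset.mul_sum]
              refine Finset.sum_congr rfl fun d _ => ?_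
              simp only [hH, if_pos hc.2]
              rw [← mul_assoc b c d]
            · intro c hc hc'
              rw [mem_Icc] at hc hc'
              refine Finset.sum_eq_zero fun d _ => ?_
              simp only [hH]
              rw [if_neg (by omega)]
          · intro c e hce
            simp only [hH]
            rw [hD1 (b * (c * e)) (hce.trans_le (Nat.le_mul_of_pos_left _ hb.1))]
            simp
        · intro b hb hb'
          rw [mem_Icc] at hb hb'
          refine Finset.sum_eq_zero fun d _ => ?_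
          simp only [hG2]
          rw [if_neg (by omega)]
    · have hmid : ∑ b ∈ Icc 1 x, ∑ d ∈ Icc 1 x, G3 b d =
          ∑ c ∈ Ioc U (U * 2 ^ K), ∑ m ∈ Ioc V (V * 2 ^ K),
            ArithmeticFunction.vonMangoldt c * gV V m * D (c * m) := by
        have h1 : ∀ c, 1 ≤ c → ∑ m ∈ Ioc V (V * 2 ^ K),
            ArithmeticFunction.vonMangoldt c * gV V m * D (c * m) =
            ∑ m ∈ Icc 1 x, ArithmeticFunction.vonMangoldt c * gV V m * D (c * m) := by
          intro c hc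
          have a1 : ∑ m ∈ Ioc V x, ArithmeticFunction.vonMangoldt c * gV V m * D (c * m) =
              ∑ m ∈ Icc 1 x, ArithmeticFunction.vonMangoldt c * gV V m * D (c * m) := by
            refine Finset.sum_subset ?_ ?_
            · intro m hm
              rw [mem_Ioc] at hm
              rw [mem_Icc]
              omega
            · intro m hm hm'
              rw [mem_Icc] at hm
              rw [mem_Ioc] at hm'
              rw [gV_small (by omega)]
              ring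
          have a2 : ∑ m ∈ Ioc V x, ArithmeticFunction.vonMangoldt c * gV V m * D (c * m) =
              ∑ m ∈ Ioc V (V * 2 ^ K),
                ArithmeticFunction.vonMangoldt c * gV V m * D (c * m) := by
            refine Finset.sum_subset ?_ ?_
            · refine Finset.Ioc_subset_Ioc_right ?_
              exact hK.le.trans (Nat.le_mul_of_pos_left _ hV)
            · intro m hm hm'
              rw [mem_Ioc] at hm hm'
              rw [hD1 (c * m)]
              · ring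
              · have h3 : x < m := by omega
                exact h3.trans_le (Nat.le_mul_of_pos_left _ hc)
          rw [← a2, a1]
        have h2 : ∑ b ∈ Icc 1 x, ∑ d ∈ Icc 1 x, G3 b d =
            ∑ c ∈ Ioc U x, ∑ m ∈ Ioc V (V * 2 ^ K),
              ArithmeticFunction.vonMangoldt c * gV V m * D (c * m) := by
          rw [← Finset.sum_subset (s₁ := Ioc U x) (s₂ := Icc 1 x)]
          · refine Finset.sum_congr rfl fun c hc => ?_
            rw [mem_Ioc] at hc
            rw [h1 c (by omega)]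
            refine Finset.sum_congr rfl fun d _ => ?_
            simp only [hG3, if_pos hc.1]
          · intro m hm
            rw [mem_Ioc] at hm
            rw [mem_Icc]
            omega
          · intro c hc hc'
            rw [mem_Icc] at hc
            rw [mem_Ioc] at hc'
            refine Finset.sum_eq_zero fun d _ => ?_
            simp only [hG3]
            rw [if_neg (by omega)]
        rw [h2]
        refine Finset.sum_subset ?_ ?_
        · refine Finset.Ioc_subset_Ioc_right ?_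
          exact hK.le.trans (Nat.le_mul_of_pos_left _ hU)
        · intro c hc hc'
          rw [mem_Ioc] at hc hc'
          refine Finset.sum_eq_zero fun m hm => ?_
          rw [mem_Ioc] at hm
          rw [hD1 (c * m)]
          · ring
          · have h3 : x < c := by omega
            exact h3.trans_le (Nat.le_mul_of_pos_right _ (by omega))
      rw [hmid, sum_dyadic]
      refine Finset.sum_congr rfl fun i _ => ?_
      rw [Finset.sum_comm, sum_dyadic]
      refine Finset.sum_congr rfl fun j _ => ?_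
      rw [Finset.sum_comm]
  · intro b d h
    simp only [hG3]
    rw [hD1 _ h]
    simp
  · intro b d h
    simp only [hG2]
    rw [hD1 _ h]
    simp
  · intro b d h
    simp only [hG1]
    rw [hD1 _ h]
    simp

/-! ## Reduction to the von Mangoldt function -/

theorem th_diff {x k p a : ℕ} (hx : 16 ≤ x) (hp : p.Prime) (hpx : 16 * p ≤ x)
    (hL : 1 ≤ Real.log x) :
    |th x (k * p) a - th x k a / ((p : ℝ) - 1)| ≤
      |∑ n ∈ Icc 1 x, ArithmeticFunction.vonMangoldt n * (tw x n * dl k p a n)|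
        + 2 * √x * Real.log x := by
  have hp2 := hp.two_le
  have e1 : th x (k * p) a - th x k a / ((p : ℝ) - 1) = ∑ n ∈ Icc 1 x, pw x n * dl k p a n := by
    unfold th
    rw [Finset.sum_filter, Finset.sum_filter, Finset.sum_div, ← Finset.sum_sub_distrib]
    refine Finset.sum_congr rfl fun n hn => ?_
    rw [mem_Icc] at hn
    by_cases hnp : n.Prime
    · by_cases hpn : p ∣ n
      · have h1 : p = n := (Nat.prime_dvd_prime_iff_eq hp hnp).1 hpn
        have h2 : pw x n = 0 := by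
          unfold pw
          rw [if_pos hnp, tw_small hn.1 (by omega)]
          ring
        rw [h2]
        simp
      · unfold dl
        by_cases h1 : n ≡ a [MOD k * p] <;> by_cases h2 : n ≡ a [MOD k] <;> simp [h1, h2, hpn] <;>
          ring
    · have h2 : pw x n = 0 := by
        unfold pw
        rw [if_neg hnp]
      rw [h2]
      simp
  set S := ∑ n ∈ Icc 1 x, pw x n * dl k p a n with hS
  have e2 : Real.log x * S = (∑ n ∈ Icc 1 x, ArithmeticFunction.vonMangoldt n *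
      (tw x n * dl k p a n)) - ∑ n ∈ (Icc 1 x).filter (fun n => ¬ n.Prime),
        ArithmeticFunction.vonMangoldt n * (tw x n * dl k p a n) := by
    rw [hS, Finset.mul_sum, Finset.sum_filter, ← Finset.sum_sub_distrib]
    refine Finset.sum_congr rfl fun n hn => ?_
    by_cases hnp : n.Prime
    · unfold pw
      rw [if_pos hnp, if_neg (not_not.2 hnp), ArithmeticFunction.vonMangoldt_apply_prime hnp]
      field_simp
      ring
    · unfold pw
      rw [if_neg hnp, if_pos hnp]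
      ring
  have e3 : |∑ n ∈ (Icc 1 x).filter (fun n => ¬ n.Prime),
        ArithmeticFunction.vonMangoldt n * (tw x n * dl k p a n)| ≤ 2 * √x * Real.log x := by
    have hx1 : (1 : ℝ) ≤ x := by exact_mod_cast (by omega : 1 ≤ x)
    refine le_trans ?_ (Chebyshev.psi_sub_theta_le hx1)
    rw [Chebyshev.psi_sub_theta_eq_sum_not_prime, Nat.floor_natCast]
    refine (Finset.abs_sum_le_sum_abs _ _).trans ?_
    have h3 : (Icc 1 x).filter (fun n => ¬ n.Prime) = (Ioc 0 x).filter (fun n => ¬ n.Prime) := by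
      ext n
      simp only [mem_filter, mem_Icc, mem_Ioc]
      constructor
      · rintro ⟨⟨h1, h2⟩, h3⟩
        exact ⟨⟨by omega, h2⟩, h3⟩
      · rintro ⟨⟨h1, h2⟩, h3⟩
        exact ⟨⟨by omega, h2⟩, h3⟩
    rw [h3]
    refine le_trans (Finset.sum_le_sum fun n hn => ?_) (le_of_eq (Finset.sum_congr ?_ fun _ _ => rfl))
    · rw [abs_mul, abs_mul, abs_of_nonneg ArithmeticFunction.vonMangoldt_nonneg,
        abs_of_nonneg (tw_nonneg x n)]
      have h4 : tw x n * |dl k p a n| ≤ 1 :=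
        mul_le_one₀ (tw_le_one x n) (abs_nonneg _) (dl_abs hp2)
      exact mul_le_of_le_one_right ArithmeticFunction.vonMangoldt_nonneg h4
    · ext n
      simp only [mem_filter]
  rw [e1]
  have h5 : |S| ≤ |Real.log x * S| := by
    rw [abs_mul, abs_of_nonneg (by linarith : (0 : ℝ) ≤ Real.log x)]
    exact le_mul_of_one_le_left (abs_nonneg _) hL
  rw [e2] at h5
  refine h5.trans ((abs_sub _ _).trans ?_)
  linarith

/-! ## Inequalities -/

theorem ineq_core {s L k P M1 M2 q : ℝ} (hs : 1 ≤ s) (hL : 1 ≤ L) (hk : 1 ≤ k) (hP : 1 ≤ P)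
    (hkP : k * P ≤ s ^ 6) (hM1 : 0 ≤ M1) (hM1' : M1 ≤ 2 * s ^ 16) (hM2 : 0 ≤ M2)
    (hM2' : M2 ≤ 2 * s ^ 16) (hMM : M1 * M2 ≤ s ^ 24) (hq : 0 ≤ q) (hq' : q ≤ 3 * L * P ^ 2) :
    (M1 / k + q) * (M2 / k + q) * (M1 * M2) ≤ ((s ^ 24 / k) * (5 * L * (1 + P / s))) ^ 2 := by
  have hs0 : 0 < s := by linarith
  have hk0 : 0 < k := by linarith
  have hP0 : 0 < P := by linarith
  have hL0 : 0 < L := by linarith only [hL]
  have hks : k ≤ s ^ 6 := le_trans (le_mul_of_one_le_right hk0.le hP) hkP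
  -- first step
  have e1 : (M1 + k * q) * (M2 + k * q) ≤ s ^ 24 + 12 * L * P ^ 2 * s ^ 16 * k +
      9 * L ^ 2 * P ^ 4 * k ^ 2 := by
    have h1 : k * q * (M1 + M2) ≤ k * (3 * L * P ^ 2) * (4 * s ^ 16) := by
      refine mul_le_mul (mul_le_mul_of_nonneg_left hq' hk0.le) (by linarith only [hM1', hM2']) (by linarith only [hM1, hM2])
        (by positivity)
    have h2 : q ^ 2 ≤ (3 * L * P ^ 2) ^ 2 := pow_le_pow_left₀ hq hq' 2
    have h3 : k ^ 2 * q ^ 2 ≤ k ^ 2 * (3 * L * P ^ 2) ^ 2 :=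
      mul_le_mul_of_nonneg_left h2 (by positivity)
    nlinarith only [hMM, h1, h3]
  have e2 : (M1 + k * q) * (M2 + k * q) * (M1 * M2) ≤ (s ^ 24 + 12 * L * P ^ 2 * s ^ 16 * k +
      9 * L ^ 2 * P ^ 4 * k ^ 2) * s ^ 24 := by
    refine mul_le_mul e1 hMM (by positivity) (by positivity)
  have hs46 : s ^ 6 * s ^ 40 = s ^ 46 := by ring
  have e3 : 12 * L * P ^ 2 * s ^ 16 * k * s ^ 24 ≤ 12 * L ^ 2 * P ^ 2 * s ^ 46 := by
    have h1 : L ≤ L ^ 2 := by nlinarith only [hL]
    have h2 : k * s ^ 40 ≤ s ^ 46 := by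
      rw [← hs46]
      exact mul_le_mul_of_nonneg_right hks (by positivity)
    calc 12 * L * P ^ 2 * s ^ 16 * k * s ^ 24 = 12 * L * P ^ 2 * (k * s ^ 40) := by ring
      _ ≤ 12 * L ^ 2 * P ^ 2 * s ^ 46 := by
        refine mul_le_mul ?_ h2 (by positivity) (by positivity)
        have : L * P ^ 2 ≤ L ^ 2 * P ^ 2 := mul_le_mul_of_nonneg_right h1 (by positivity)
        linarith only [this]
  have e4 : 9 * L ^ 2 * P ^ 4 * k ^ 2 * s ^ 24 ≤ 9 * L ^ 2 * P ^ 2 * s ^ 46 := by
    have h1 : (k * P) ^ 2 ≤ (s ^ 6) ^ 2 := pow_le_pow_left₀ (by positivity) hkP 2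
    have h2 : (s ^ 6) ^ 2 * s ^ 24 ≤ s ^ 46 := by
      calc (s ^ 6) ^ 2 * s ^ 24 = s ^ 36 := by ring
        _ ≤ s ^ 46 := pow_le_pow_right₀ hs (by norm_num)
    calc 9 * L ^ 2 * P ^ 4 * k ^ 2 * s ^ 24 = 9 * L ^ 2 * P ^ 2 * ((k * P) ^ 2 * s ^ 24) := by ring
      _ ≤ 9 * L ^ 2 * P ^ 2 * s ^ 46 := by
        refine mul_le_mul_of_nonneg_left ?_ (by positivity)
        exact (mul_le_mul_of_nonneg_right h1 (by positivity)).trans h2
  have e5 : s ^ 48 + 21 * L ^ 2 * P ^ 2 * s ^ 46 ≤ (s ^ 23 * (5 * L * (s + P))) ^ 2 := by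
    have h1 : (s ^ 23 * (5 * L * (s + P))) ^ 2 =
        25 * L ^ 2 * s ^ 48 + 50 * L ^ 2 * s ^ 47 * P + 25 * L ^ 2 * P ^ 2 * s ^ 46 := by ring
    rw [h1]
    have h2 : 1 ≤ L ^ 2 := by nlinarith only [hL]
    have h3 : s ^ 48 ≤ L ^ 2 * s ^ 48 := le_mul_of_one_le_left (by positivity) h2
    have h4 : 0 ≤ L ^ 2 * s ^ 47 * P := by positivity
    have h5 : 0 ≤ L ^ 2 * P ^ 2 * s ^ 46 := by positivity
    have h6 : 0 ≤ L ^ 2 * s ^ 48 := by positivity
    nlinarith
  have e6 : (M1 + k * q) * (M2 + k * q) * (M1 * M2) ≤ (s ^ 23 * (5 * L * (s + P))) ^ 2 := by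
    refine e2.trans (le_trans ?_ e5)
    have : (s ^ 24 + 12 * L * P ^ 2 * s ^ 16 * k + 9 * L ^ 2 * P ^ 4 * k ^ 2) * s ^ 24 =
        s ^ 48 + 12 * L * P ^ 2 * s ^ 16 * k * s ^ 24 + 9 * L ^ 2 * P ^ 4 * k ^ 2 * s ^ 24 := by
      ring
    rw [this]
    linarith only [e3, e4]
  have e7 : (M1 / k + q) * (M2 / k + q) * (M1 * M2) =
      (M1 + k * q) * (M2 + k * q) * (M1 * M2) / k ^ 2 := by
    field_simp
  have e8 : ((s ^ 24 / k) * (5 * L * (1 + P / s))) ^ 2 =
      (s ^ 23 * (5 * L * (s + P))) ^ 2 / k ^ 2 := by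
    field_simp
  rw [e7, e8]
  exact div_le_div_of_nonneg_right e6 (by positivity)

theorem ineq_root {s L k P M1 M2 q S1 S2 Ct : ℝ} (hs : 1 ≤ s) (hL : 1 ≤ L) (hk : 1 ≤ k)
    (hP : 1 ≤ P) (hkP : k * P ≤ s ^ 6) (hM1 : 0 ≤ M1) (hM1' : M1 ≤ 2 * s ^ 16) (hM2 : 0 ≤ M2)
    (hM2' : M2 ≤ 2 * s ^ 16) (hMM : M1 * M2 ≤ s ^ 24) (hq : 0 ≤ q) (hq' : q ≤ 3 * L * P ^ 2)
    (hS1' : S1 ≤ M1 * (4 * L ^ 2)) (hS2 : 0 ≤ S2)
    (hS2' : S2 ≤ M2 * (Ct * (54 * L ^ 3))) (hCt : 0 ≤ Ct) :
    √((M1 / k + q) * (M2 / k + q) * (S1 * S2)) ≤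
      (s ^ 24 / k) * (5 * L * (1 + P / s)) * (√(216 * Ct) * L ^ 3) := by
  have hs0 : 0 < s := by linarith only [hs]
  have hk0 : 0 < k := by linarith only [hk]
  have hP0 : 0 < P := by linarith only [hP]
  have hL0 : 0 < L := by linarith only [hL]
  refine Real.sqrt_le_iff.2 ⟨by positivity, ?_⟩
  have h1 : ((s ^ 24 / k) * (5 * L * (1 + P / s)) * (√(216 * Ct) * L ^ 3)) ^ 2 =
      ((s ^ 24 / k) * (5 * L * (1 + P / s))) ^ 2 * (216 * Ct * L ^ 6) := by
    rw [mul_pow, mul_pow (√(216 * Ct)), Real.sq_sqrt (by positivity)]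
    ring
  rw [h1]
  have h2 : S1 * S2 ≤ (M1 * M2) * (216 * Ct * L ^ 6) := by
    calc S1 * S2 ≤ (M1 * (4 * L ^ 2)) * (M2 * (Ct * (54 * L ^ 3))) :=
          mul_le_mul hS1' hS2' hS2 (by positivity)
      _ = (M1 * M2) * (216 * Ct * L ^ 5) := by ring
      _ ≤ (M1 * M2) * (216 * Ct * L ^ 6) := by
        have : L ^ 5 ≤ L ^ 6 := pow_le_pow_right₀ hL (by norm_num)
        gcongr
  calc (M1 / k + q) * (M2 / k + q) * (S1 * S2)
      ≤ (M1 / k + q) * (M2 / k + q) * ((M1 * M2) * (216 * Ct * L ^ 6)) := by gcongr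
    _ = ((M1 / k + q) * (M2 / k + q) * (M1 * M2)) * (216 * Ct * L ^ 6) := by ring
    _ ≤ _ := mul_le_mul_of_nonneg_right
        (ineq_core hs hL hk hP hkP hM1 hM1' hM2 hM2' hMM hq hq') (by positivity)

theorem log_two_mul_le {M x : ℕ} (hM : 1 ≤ M) (hMx : M ≤ x) (hL : 1 ≤ Real.log x) :
    Real.log ((2 * M : ℕ) : ℝ) ≤ 2 * Real.log x := by
  have hM0 : (0 : ℝ) < M := by exact_mod_cast hM
  have h1 : Real.log M ≤ Real.log x := Real.log_le_log hM0 (by exact_mod_cast hMx)
  have h2 : Real.log 2 ≤ 1 := by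
    have := Real.log_two_lt_d9
    linarith
  push_cast
  rw [Real.log_mul (by norm_num) hM0.ne']
  linarith

theorem sum_vM_sq {M x : ℕ} (hM : 1 ≤ M) (hMx : M ≤ x) (hL : 1 ≤ Real.log x) :
    ∑ m ∈ Ioc M (2 * M), ArithmeticFunction.vonMangoldt m ^ 2 ≤ M * (4 * Real.log x ^ 2) := by
  have h1 : ∀ m ∈ Ioc M (2 * M), ArithmeticFunction.vonMangoldt m ^ 2 ≤ 4 * Real.log x ^ 2 := by
    intro m hm
    rw [mem_Ioc] at hm
    have h2 : ArithmeticFunction.vonMangoldt m ≤ 2 * Real.log x := by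
      refine ArithmeticFunction.vonMangoldt_le_log.trans (le_trans ?_ (log_two_mul_le hM hMx hL))
      exact Real.log_le_log (by exact_mod_cast (by omega : 0 < m)) (by exact_mod_cast hm.2)
    have h3 := pow_le_pow_left₀ ArithmeticFunction.vonMangoldt_nonneg h2 2
    linarith
  refine (Finset.sum_le_card_nsmul _ _ _ h1).trans ?_
  rw [Nat.card_Ioc, nsmul_eq_mul]
  have : ((2 * M - M : ℕ) : ℝ) = M := by
    congr 1
    omega
  rw [this]

theorem sum_g_sq {CT : ℝ} (hCT : 0 < CT)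
    (hTA : ∀ N : ℕ, ∑ n ∈ Icc 1 N, (n.divisors.card : ℝ) ^ 2 ≤ CT * N * (1 + Real.log N) ^ 3)
    {V M x : ℕ} (hM : 1 ≤ M) (hMx : M ≤ x) (hL : 1 ≤ Real.log x) :
    ∑ m ∈ Ioc M (2 * M), gV V m ^ 2 ≤ M * (CT * (54 * Real.log x ^ 3)) := by
  have h1 : ∑ m ∈ Ioc M (2 * M), gV V m ^ 2 ≤ ∑ m ∈ Icc 1 (2 * M), (m.divisors.card : ℝ) ^ 2 := by
    refine (Finset.sum_le_sum fun m _ => gV_sq V m).trans ?_
    refine Finset.sum_le_sum_of_subset_of_nonneg ?_ fun _ _ _ => by positivity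
    intro m hm
    rw [mem_Ioc] at hm
    rw [mem_Icc]
    omega
  refine h1.trans ((hTA _).trans ?_)
  have h2 := log_two_mul_le hM hMx hL
  have h3 : 0 ≤ Real.log ((2 * M : ℕ) : ℝ) := Real.log_natCast_nonneg _
  have h4 : (1 + Real.log ((2 * M : ℕ) : ℝ)) ^ 3 ≤ (3 * Real.log x) ^ 3 :=
    pow_le_pow_left₀ (by linarith) (by linarith) 3
  have h5 : (0 : ℝ) ≤ CT * ((2 * M : ℕ) : ℝ) := by positivity
  refine (mul_le_mul_of_nonneg_left h4 h5).trans (le_of_eq ?_)
  push_cast
  ring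

/-- one dyadic block -/
theorem block {CB CT : ℝ} (hCB : 0 < CB) (hCT : 0 < CT)
    (hTA : ∀ N : ℕ, ∑ n ∈ Icc 1 N, (n.divisors.card : ℝ) ^ 2 ≤ CT * N * (1 + Real.log N) ^ 3)
    {x k P M1 M2 V : ℕ} {a : ℕ → ℕ} {s : ℝ}
    (hBW : ∀ (f g : ℕ → ℝ), M1 * M2 ≤ x → ∑ p ∈ prk k P, |∑ m ∈ Ioc M1 (2 * M1), ∑ n ∈ Ioc M2 (2 * M2),
      f m * g n * (tw x (m * n) * dl k p (a p) (m * n))|
    ≤ CB * Real.log x / P *
      √((M1 / k + 1 + P ^ 2 * (1 + Real.log P)) * (M2 / k + 1 + P ^ 2 * (1 + Real.log P)) *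
        ((∑ m ∈ Ioc M1 (2 * M1), f m ^ 2) * ∑ n ∈ Ioc M2 (2 * M2), g n ^ 2)))
    (hx : 1 ≤ x) (hs : 1 ≤ s) (hsx : s ^ 24 = x) (hL : 1 ≤ Real.log x) (hk : 1 ≤ k) (hP : 1 ≤ P)
    (hkP : (k : ℝ) * P ≤ s ^ 6) (hM1 : s ^ 8 ≤ 2 * M1) (hM2 : s ^ 8 ≤ 2 * M2) :
    ∑ p ∈ prk k P, |∑ m ∈ Ioc M1 (2 * M1), ∑ n ∈ Ioc M2 (2 * M2),
      ArithmeticFunction.vonMangoldt m * gV V n * (tw x (m * n) * dl k p (a p) (m * n))|
    ≤ 5 * CB * √(216 * CT) * Real.log x ^ 5 * ((x : ℝ) / k * (1 / P + 1 / s)) := by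
  have hs0 : 0 < s := by linarith
  have hk0 : (0 : ℝ) < k := by exact_mod_cast hk
  have hk1 : (1 : ℝ) ≤ k := by exact_mod_cast hk
  have hP0 : (0 : ℝ) < P := by exact_mod_cast hP
  have hP1 : (1 : ℝ) ≤ P := by exact_mod_cast hP
  have hs8 : 0 < s ^ 8 := by positivity
  have hM10 : (0 : ℝ) < M1 := by linarith only [hM1, hs8]
  have hM20 : (0 : ℝ) < M2 := by linarith only [hM2, hs8]
  have hM1n : 1 ≤ M1 := by exact_mod_cast hM10
  have hM2n : 1 ≤ M2 := by exact_mod_cast hM20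
  set L := Real.log x with hLdef
  rcases le_or_gt (M1 * M2) x with hMM | hMM
  · have hMMr : (M1 : ℝ) * M2 ≤ s ^ 24 := by
      rw [hsx]
      exact_mod_cast hMM
    have hM1x : M1 ≤ x := (Nat.le_mul_of_pos_right _ hM2n).trans hMM
    have hM2x : M2 ≤ x := (Nat.le_mul_of_pos_left _ hM1n).trans hMM
    have b1 : (M1 : ℝ) ≤ 2 * s ^ 16 := by
      have h1 : (M1 : ℝ) * s ^ 8 ≤ 2 * s ^ 16 * s ^ 8 := by
        calc (M1 : ℝ) * s ^ 8 ≤ M1 * (2 * M2) := mul_le_mul_of_nonneg_left hM2 hM10.le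
          _ = 2 * (M1 * M2) := by ring
          _ ≤ 2 * s ^ 24 := by linarith only [hMMr]
          _ = 2 * s ^ 16 * s ^ 8 := by ring
      exact le_of_mul_le_mul_right h1 hs8
    have b2 : (M2 : ℝ) ≤ 2 * s ^ 16 := by
      have h1 : (M2 : ℝ) * s ^ 8 ≤ 2 * s ^ 16 * s ^ 8 := by
        calc (M2 : ℝ) * s ^ 8 ≤ M2 * (2 * M1) := mul_le_mul_of_nonneg_left hM1 hM20.le
          _ = 2 * (M1 * M2) := by ring
          _ ≤ 2 * s ^ 24 := by linarith only [hMMr]
          _ = 2 * s ^ 16 * s ^ 8 := by ring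
      exact le_of_mul_le_mul_right h1 hs8
    have hPx : Real.log P ≤ L := by
      refine Real.log_le_log hP0 ?_
      have h1 : (P : ℝ) ≤ k * P := le_mul_of_one_le_left hP0.le hk1
      have h2 : s ^ 6 ≤ s ^ 24 := pow_le_pow_right₀ hs (by norm_num)
      rw [← hsx]
      linarith only [hkP, h1, h2]
    have hlP : 0 ≤ Real.log P := Real.log_natCast_nonneg _
    set q : ℝ := 1 + P ^ 2 * (1 + Real.log P) with hq
    have hq0 : 0 ≤ q := by positivity
    have hq1 : q ≤ 3 * L * P ^ 2 := by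
      have h1 : (1 : ℝ) ≤ P ^ 2 := one_le_pow₀ hP1
      have h2 : (P : ℝ) ^ 2 * (1 + Real.log P) ≤ P ^ 2 * (1 + L) :=
        mul_le_mul_of_nonneg_left (by linarith only [hPx]) (by positivity)
      have h3 : (P : ℝ) ^ 2 ≤ L * P ^ 2 := le_mul_of_one_le_left (by positivity) hL
      nlinarith only [h1, h2, h3]
    refine (hBW _ _ hMM).trans ?_
    have e1 : ((M1 : ℝ) / k + 1 + P ^ 2 * (1 + Real.log P)) = M1 / k + q := by rw [hq]; ring
    have e2 : ((M2 : ℝ) / k + 1 + P ^ 2 * (1 + Real.log P)) = M2 / k + q := by rw [hq]; ring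
    rw [e1, e2]
    have hroot := ineq_root (Ct := CT) hs hL hk1 hP1 hkP hM10.le b1 hM20.le b2 hMMr hq0 hq1
      (sum_vM_sq hM1n hM1x hL)
      (Finset.sum_nonneg fun m _ => sq_nonneg (gV V m)) (sum_g_sq hCT hTA hM2n hM2x hL) hCT.le
    have hc : 0 ≤ CB * L / P := by positivity
    refine (mul_le_mul_of_nonneg_left hroot hc).trans (le_of_eq ?_)
    rw [hsx]
    field_simp
  · rw [Finset.sum_eq_zero]
    · positivity
    · intro p _
      rw [abs_eq_zero]
      refine Finset.sum_eq_zero fun m hm => Finset.sum_eq_zero fun n hn => ?_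
      rw [mem_Ioc] at hm hn
      rw [tw_large hx]
      · ring
      · exact hMM.le.trans (Nat.mul_le_mul hm.1.le hn.1.le)

theorem rb (h1 : StmtBW) (h2 : StmtVI) (h3 : StmtTA) (h4 : StmtT1) : StmtRB := by
  obtain ⟨CB, hCB, xB, hBW⟩ := h1
  obtain ⟨CT, hCT, hTA⟩ := h3
  obtain ⟨C1, hC1, hT1⟩ := h4
  set Q : ℝ := (2 * C1 + 2) + 45 * CB * √(216 * CT) with hQ
  have hQ0 : 0 ≤ Q := by positivity
  obtain ⟨x1, hx1⟩ : ∃ x1 : ℕ, ∀ x : ℕ, x1 ≤ x → Q + 1 ≤ Real.log x := by
    have := (Real.tendsto_log_atTop.comp tendsto_natCast_atTop_atTop).eventually_ge_atTop (Q + 1)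
    exact eventually_atTop.1 this
  refine ⟨8, max (max xB x1) (2 ^ 24), ?_⟩
  intro x k P hx hk hP hkP4 a ha
  have hxB : xB ≤ x := (le_max_left _ _).trans ((le_max_left _ _).trans hx)
  have hxx1 : x1 ≤ x := (le_max_right _ _).trans ((le_max_left _ _).trans hx)
  have hx24 : 2 ^ 24 ≤ x := (le_max_right _ _).trans hx
  have hLQ := hx1 x hxx1
  have hL : 1 ≤ Real.log x := by linarith only [hQ0, hLQ]
  have hX24 : (2 : ℝ) ^ 24 ≤ x := by exact_mod_cast hx24
  have hX0 : (0 : ℝ) < x := by linarith only [hX24, show (0 : ℝ) < 2 ^ 24 by norm_num]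
  have hX1 : (1 : ℝ) ≤ x := by linarith only [hX24, show (1 : ℝ) ≤ 2 ^ 24 by norm_num]
  have hx16 : 16 ≤ x := le_trans (by norm_num) hx24
  -- the scale
  set s : ℝ := (x : ℝ) ^ ((1 / 24 : ℝ)) with hsdef
  have hsx : s ^ 24 = x := by
    rw [hsdef, ← Real.rpow_natCast, ← Real.rpow_mul hX0.le]
    norm_num
  have hs0 : 0 < s := Real.rpow_pos_of_pos hX0 _
  have hs2 : 2 ≤ s := by
    by_contra hlt
    push Not at hlt
    have := pow_lt_pow_left₀ hlt hs0.le (n := 24) (by norm_num)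
    rw [hsx] at this
    linarith only [hX24, this]
  have hs1 : 1 ≤ s := by linarith only [hs2]
  have hk0 : (0 : ℝ) < k := by exact_mod_cast hk
  have hk1 : (1 : ℝ) ≤ k := by exact_mod_cast hk
  have hP0 : (0 : ℝ) < P := by exact_mod_cast hP
  have hP1 : (1 : ℝ) ≤ P := by exact_mod_cast hP
  have hkP : (k : ℝ) * P ≤ s ^ 6 := by
    have h5 : ((k : ℝ) * P) ^ 4 ≤ (s ^ 6) ^ 4 := by
      calc ((k : ℝ) * P) ^ 4 ≤ x := by exact_mod_cast hkP4
        _ = (s ^ 6) ^ 4 := by rw [← hsx]; ring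
    exact (pow_le_pow_iff_left₀ (by positivity) (by positivity) (by norm_num)).1 h5
  have hPs : (P : ℝ) ≤ s ^ 6 := (le_mul_of_one_le_left hP0.le hk1).trans hkP
  -- the parameter of Vaughan's identity
  set U : ℕ := ⌊s ^ 8⌋₊ with hUdef
  have hs8 : (256 : ℝ) ≤ s ^ 8 := by
    calc (256 : ℝ) = 2 ^ 8 := by norm_num
      _ ≤ s ^ 8 := pow_le_pow_left₀ (by norm_num) hs2 8
  have hU1 : (U : ℝ) ≤ s ^ 8 := Nat.floor_le (by positivity)
  have hU2 : s ^ 8 ≤ 2 * U := by
    have := Nat.lt_floor_add_one (s ^ 8)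
    linarith only [hs8, this]
  have hU : 1 ≤ U := by
    have : (0 : ℝ) < U := by linarith only [hs8, hU2]
    exact_mod_cast this
  have hU16 : 16 * U ≤ x := by
    have h5 : (16 : ℝ) * U ≤ x := by
      calc (16 : ℝ) * U ≤ s ^ 8 * s ^ 8 := mul_le_mul (by linarith only [hs8]) hU1 (by positivity) (by positivity)
        _ = s ^ 16 := by ring
        _ ≤ s ^ 24 := pow_le_pow_right₀ hs1 (by norm_num)
        _ = x := hsx
    exact_mod_cast h5
  have hUx : U ≤ x := by omega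
  -- number of dyadic blocks
  set K : ℕ := Nat.log 2 x + 1 with hKdef
  have hxK : x < 2 ^ K := Nat.lt_pow_succ_log_self (by norm_num) x
  have hKL : (K : ℝ) ≤ 3 * Real.log x := by
    have h5 : 2 ^ Nat.log 2 x ≤ x := Nat.pow_log_le_self 2 (by omega)
    have h6 : (Nat.log 2 x : ℝ) * Real.log 2 ≤ Real.log x := by
      rw [← Real.log_pow]
      exact Real.log_le_log (by positivity) (by exact_mod_cast h5)
    have h7 := Real.log_two_gt_d9
    have h8 : (0 : ℝ) ≤ Nat.log 2 x := Nat.cast_nonneg _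
    have h9 : (Nat.log 2 x : ℝ) * (1 / 2) ≤ Real.log x := by nlinarith only [hQ0, hLQ, h6, h7]
    rw [hKdef]
    push_cast
    linarith only [hQ0, hLQ, h9]
  -- the blocks
  set B : ℝ := 5 * CB * √(216 * CT) * Real.log x ^ 5 * ((x : ℝ) / k * (1 / P + 1 / s)) with hBdef
  have hB0 : 0 ≤ B := by positivity
  have hblock : ∀ i j : ℕ, ∑ p ∈ prk k P, |∑ c ∈ Ioc (U * 2 ^ i) (2 * (U * 2 ^ i)),
      ∑ m ∈ Ioc (U * 2 ^ j) (2 * (U * 2 ^ j)), ArithmeticFunction.vonMangoldt c * gV U m *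
        (tw x (c * m) * dl k p (a p) (c * m))| ≤ B := by
    intro i j
    have hbig : ∀ t : ℕ, s ^ 8 ≤ 2 * ((U * 2 ^ t : ℕ) : ℝ) := by
      intro t
      have h5 : U ≤ U * 2 ^ t := Nat.le_mul_of_pos_right _ (by positivity)
      have h6 : (U : ℝ) ≤ ((U * 2 ^ t : ℕ) : ℝ) := by exact_mod_cast h5
      linarith only [hU2, h6]
    have hpos : ∀ t : ℕ, 1 ≤ U * 2 ^ t := fun t =>
      hU.trans (Nat.le_mul_of_pos_right _ (by positivity))
    exact block hCB hCT hTA
      (fun f g hMM => hBW x k P _ _ f g a hxB hk hP (hpos i) (hpos j) hMM ha)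
      (by omega) hs1 hsx hL hk hP hkP (hbig i) (hbig j)
  -- each prime
  have hp : ∀ p ∈ prk k P, |th x (k * p) (a p) - th x k (a p) / ((p : ℝ) - 1)| ≤
      (2 * C1 + 2) * Real.log x * s ^ 16 +
        ∑ i ∈ range K, ∑ j ∈ range K, |∑ c ∈ Ioc (U * 2 ^ i) (2 * (U * 2 ^ i)),
      ∑ m ∈ Ioc (U * 2 ^ j) (2 * (U * 2 ^ j)), ArithmeticFunction.vonMangoldt c * gV U m *
        (tw x (c * m) * dl k p (a p) (c * m))| := by
    intro p hpm
    have hpm' := hpm
    unfold prk at hpm'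
    rw [mem_filter, mem_Ioc] at hpm'
    obtain ⟨⟨hp1, hp2⟩, hpp, hpk⟩ := hpm'
    have hpx : 16 * p ≤ x := by
      have h5 : (16 : ℝ) * p ≤ x := by
        have h6 : (p : ℝ) ≤ 2 * P := by exact_mod_cast hp2
        calc (16 : ℝ) * p ≤ 32 * s ^ 6 := by linarith only [hPs, h6]
          _ ≤ s ^ 8 * s ^ 6 := mul_le_mul_of_nonneg_right (by linarith only [hs8]) (by positivity)
          _ = s ^ 14 := by ring
          _ ≤ s ^ 24 := pow_le_pow_right₀ hs1 (by norm_num)
          _ = x := hsx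
      exact_mod_cast h5
    have hcop := ha p hpm
    refine (th_diff hx16 hpp hpx hL).trans ?_
    obtain ⟨D, hD⟩ : ∃ D : ℕ → ℝ, D = fun n => tw x n * dl k p (a p) n := ⟨_, rfl⟩
    have hDa : ∀ n, tw x n * dl k p (a p) n = D n := fun n => by rw [hD]
    simp only [hDa]
    have hD1 : ∀ n, x < n → D n = 0 := by
      intro n hn
      rw [hD]
      simp only
      rw [tw_large (by omega) hn.le, zero_mul]
    have hD2 : ∀ n, 1 ≤ n → n ≤ U → D n = 0 := by
      intro n hn hnU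
      rw [hD]
      simp only
      rw [tw_small hn (by omega), zero_mul]
    rw [vaughan h2 hU hU hUx hUx hxK D hD1 hD2]
    have t1 : |∑ b ∈ Icc 1 U, (ArithmeticFunction.moebius b : ℝ) *
        ∑ d ∈ Icc 1 x, Real.log d * D (b * d)| ≤ C1 * Real.log x * s ^ 16 := by
      refine (Finset.abs_sum_le_sum_abs _ _).trans ?_
      have h5 : ∀ b ∈ Icc 1 U, |(ArithmeticFunction.moebius b : ℝ) *
          ∑ d ∈ Icc 1 x, Real.log d * D (b * d)| ≤ C1 * Real.log x := by
        intro b hb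
        rw [mem_Icc] at hb
        have h6 := (hT1 x k p b (a p) hx16 hk hpp hpk hb.1 hcop).2
        simp only [hDa] at h6
        rw [abs_mul]
        have h7 : 0 ≤ C1 * Real.log x := by positivity
        calc |(ArithmeticFunction.moebius b : ℝ)| * |∑ d ∈ Icc 1 x, Real.log d * D (b * d)|
            ≤ 1 * (C1 * Real.log x) :=
              mul_le_mul (moebius_abs b) h6 (abs_nonneg _) zero_le_one
          _ = C1 * Real.log x := one_mul _
      refine (Finset.sum_le_card_nsmul _ _ _ h5).trans ?_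
      rw [Nat.card_Icc, Nat.add_sub_cancel, nsmul_eq_mul]
      have h8 : (U : ℝ) ≤ s ^ 16 := hU1.trans (pow_le_pow_right₀ hs1 (by norm_num))
      calc (U : ℝ) * (C1 * Real.log x) ≤ s ^ 16 * (C1 * Real.log x) :=
            mul_le_mul_of_nonneg_right h8 (by positivity)
        _ = _ := by ring
    have t2 : |∑ b ∈ Icc 1 U, ∑ c ∈ Icc 1 U, (ArithmeticFunction.moebius b : ℝ) *
          ArithmeticFunction.vonMangoldt c * ∑ d ∈ Icc 1 x, D (b * c * d)| ≤
        C1 * Real.log x * s ^ 16 := by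
      refine (Finset.abs_sum_le_sum_abs _ _).trans ?_
      have h5 : ∀ b ∈ Icc 1 U, |∑ c ∈ Icc 1 U, (ArithmeticFunction.moebius b : ℝ) *
          ArithmeticFunction.vonMangoldt c * ∑ d ∈ Icc 1 x, D (b * c * d)| ≤
          U * (C1 * Real.log x) := by
        intro b hb
        rw [mem_Icc] at hb
        refine (Finset.abs_sum_le_sum_abs _ _).trans ?_
        have h6 : ∀ c ∈ Icc 1 U, |(ArithmeticFunction.moebius b : ℝ) *
            ArithmeticFunction.vonMangoldt c * ∑ d ∈ Icc 1 x, D (b * c * d)| ≤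
              C1 * Real.log x := by
          intro c hc
          rw [mem_Icc] at hc
          have h7 := (hT1 x k p (b * c) (a p) hx16 hk hpp hpk (Nat.mul_pos hb.1 hc.1) hcop).1
          simp only [hDa] at h7
          rw [abs_mul, abs_mul, abs_of_nonneg ArithmeticFunction.vonMangoldt_nonneg]
          have h8 : ArithmeticFunction.vonMangoldt c ≤ Real.log x := by
            refine ArithmeticFunction.vonMangoldt_le_log.trans ?_
            exact Real.log_le_log (by exact_mod_cast hc.1) (by exact_mod_cast (by omega : c ≤ x))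
          have h9 : |(ArithmeticFunction.moebius b : ℝ)| * ArithmeticFunction.vonMangoldt c ≤
              1 * Real.log x :=
            mul_le_mul (moebius_abs b) h8 ArithmeticFunction.vonMangoldt_nonneg zero_le_one
          calc |(ArithmeticFunction.moebius b : ℝ)| * ArithmeticFunction.vonMangoldt c *
                |∑ d ∈ Icc 1 x, D (b * c * d)|
              ≤ (1 * Real.log x) * C1 :=
                mul_le_mul h9 h7 (abs_nonneg _) (by linarith only [hQ0, hLQ])
            _ = C1 * Real.log x := by ring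
        refine (Finset.sum_le_card_nsmul _ _ _ h6).trans ?_
        rw [Nat.card_Icc, Nat.add_sub_cancel, nsmul_eq_mul]
      refine (Finset.sum_le_card_nsmul _ _ _ h5).trans ?_
      rw [Nat.card_Icc, Nat.add_sub_cancel, nsmul_eq_mul]
      have h8 : (U : ℝ) * U ≤ s ^ 16 := by
        calc (U : ℝ) * U ≤ s ^ 8 * s ^ 8 := mul_le_mul hU1 hU1 (by positivity) (by positivity)
          _ = s ^ 16 := by ring
      calc (U : ℝ) * (U * (C1 * Real.log x)) = (U * U) * (C1 * Real.log x) := by ring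
        _ ≤ s ^ 16 * (C1 * Real.log x) := mul_le_mul_of_nonneg_right h8 (by positivity)
        _ = _ := by ring
    have t3 : |∑ i ∈ range K, ∑ j ∈ range K, ∑ c ∈ Ioc (U * 2 ^ i) (2 * (U * 2 ^ i)),
          ∑ m ∈ Ioc (U * 2 ^ j) (2 * (U * 2 ^ j)),
            ArithmeticFunction.vonMangoldt c * gV U m * D (c * m)| ≤
        ∑ i ∈ range K, ∑ j ∈ range K, |∑ c ∈ Ioc (U * 2 ^ i) (2 * (U * 2 ^ i)),
          ∑ m ∈ Ioc (U * 2 ^ j) (2 * (U * 2 ^ j)),
            ArithmeticFunction.vonMangoldt c * gV U m * D (c * m)| := by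
      refine (Finset.abs_sum_le_sum_abs _ _).trans ?_
      exact Finset.sum_le_sum fun i _ => Finset.abs_sum_le_sum_abs _ _
    have t4 : 2 * √(x : ℝ) * Real.log x ≤ 2 * Real.log x * s ^ 16 := by
      have h5 : √(x : ℝ) ≤ s ^ 16 := by
        refine Real.sqrt_le_iff.2 ⟨by positivity, ?_⟩
        rw [← hsx, ← pow_mul]
        exact pow_le_pow_right₀ hs1 (by norm_num)
      have h6 := mul_le_mul_of_nonneg_right h5 (by positivity : 0 ≤ 2 * Real.log x)
      linarith only [h6]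
    have t5 := abs_add_le ((∑ b ∈ Icc 1 U, (ArithmeticFunction.moebius b : ℝ) *
        ∑ d ∈ Icc 1 x, Real.log d * D (b * d))
      - (∑ b ∈ Icc 1 U, ∑ c ∈ Icc 1 U, (ArithmeticFunction.moebius b : ℝ) *
          ArithmeticFunction.vonMangoldt c * ∑ d ∈ Icc 1 x, D (b * c * d)))
      (∑ i ∈ range K, ∑ j ∈ range K, ∑ c ∈ Ioc (U * 2 ^ i) (2 * (U * 2 ^ i)),
          ∑ m ∈ Ioc (U * 2 ^ j) (2 * (U * 2 ^ j)),
            ArithmeticFunction.vonMangoldt c * gV U m * D (c * m))
    have t6 := abs_sub (∑ b ∈ Icc 1 U, (ArithmeticFunction.moebius b : ℝ) *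
        ∑ d ∈ Icc 1 x, Real.log d * D (b * d))
      (∑ b ∈ Icc 1 U, ∑ c ∈ Icc 1 U, (ArithmeticFunction.moebius b : ℝ) *
          ArithmeticFunction.vonMangoldt c * ∑ d ∈ Icc 1 x, D (b * c * d))
    linarith only [t1, t2, t3, t4, t5, t6]
  refine (Finset.sum_le_sum hp).trans ?_
  rw [Finset.sum_add_distrib]
  have f1 : ∑ p ∈ prk k P, (2 * C1 + 2) * Real.log x * s ^ 16 ≤
      (2 * C1 + 2) * Real.log x ^ 7 * ((x : ℝ) / k * (1 / P + 1 / s)) := by
    rw [Finset.sum_const, nsmul_eq_mul]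
    have h5 : ((prk k P).card : ℝ) ≤ P := by
      have h6 : (prk k P).card ≤ P := by
        unfold prk
        refine (Finset.card_filter_le _ _).trans ?_
        rw [Nat.card_Ioc]
        omega
      exact_mod_cast h6
    have h7 : (P : ℝ) * s ^ 16 ≤ (x : ℝ) / k * (1 / P + 1 / s) := by
      have h8 : (P : ℝ) * s ^ 16 ≤ (x : ℝ) / k * (1 / s) := by
        rw [div_mul_div_comm, mul_one, le_div_iff₀ (by positivity)]
        calc (P : ℝ) * s ^ 16 * (k * s) = (k * P) * s ^ 17 := by ring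
          _ ≤ s ^ 6 * s ^ 17 := mul_le_mul_of_nonneg_right hkP (by positivity)
          _ = s ^ 23 := by ring
          _ ≤ s ^ 24 := pow_le_pow_right₀ hs1 (by norm_num)
          _ = x := hsx
      have h9 : (0 : ℝ) ≤ (x : ℝ) / k * (1 / P) := by positivity
      rw [mul_add]
      linarith only [h8, h9]
    have h10 : Real.log x ≤ Real.log x ^ 7 := le_self_pow₀ hL (by norm_num)
    calc ((prk k P).card : ℝ) * ((2 * C1 + 2) * Real.log x * s ^ 16)
        ≤ P * ((2 * C1 + 2) * Real.log x * s ^ 16) :=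
          mul_le_mul_of_nonneg_right h5 (by positivity)
      _ = (2 * C1 + 2) * Real.log x * (P * s ^ 16) := by ring
      _ ≤ (2 * C1 + 2) * Real.log x ^ 7 * ((x : ℝ) / k * (1 / P + 1 / s)) := by
        refine mul_le_mul ?_ h7 (by positivity) (by positivity)
        exact mul_le_mul_of_nonneg_left h10 (by positivity)
  have f2 : ∑ p ∈ prk k P, ∑ i ∈ range K, ∑ j ∈ range K,
      |∑ c ∈ Ioc (U * 2 ^ i) (2 * (U * 2 ^ i)),
      ∑ m ∈ Ioc (U * 2 ^ j) (2 * (U * 2 ^ j)), ArithmeticFunction.vonMangoldt c * gV U m *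
        (tw x (c * m) * dl k p (a p) (c * m))| ≤
      45 * CB * √(216 * CT) * Real.log x ^ 7 * ((x : ℝ) / k * (1 / P + 1 / s)) := by
    rw [Finset.sum_comm]
    have h5 : ∀ i ∈ range K, ∑ p ∈ prk k P, ∑ j ∈ range K,
        |∑ c ∈ Ioc (U * 2 ^ i) (2 * (U * 2 ^ i)),
        ∑ m ∈ Ioc (U * 2 ^ j) (2 * (U * 2 ^ j)), ArithmeticFunction.vonMangoldt c * gV U m *
          (tw x (c * m) * dl k p (a p) (c * m))| ≤ K * B := by
      intro i _
      rw [Finset.sum_comm]
      refine (Finset.sum_le_card_nsmul _ _ _ fun j _ => hblock i j).trans ?_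
      rw [Finset.card_range, nsmul_eq_mul]
    refine (Finset.sum_le_card_nsmul _ _ _ h5).trans ?_
    rw [Finset.card_range, nsmul_eq_mul]
    have h6 : (K : ℝ) * K ≤ (3 * Real.log x) * (3 * Real.log x) :=
      mul_le_mul hKL hKL (by positivity) (by positivity)
    calc (K : ℝ) * (K * B) = (K * K) * B := by ring
      _ ≤ ((3 * Real.log x) * (3 * Real.log x)) * B := mul_le_mul_of_nonneg_right h6 hB0
      _ = _ := by rw [hBdef]; ring
  have f3 : 1 / s ≤ (x : ℝ) ^ (-(1 / 50) : ℝ) := by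
    rw [hsdef, one_div, ← Real.rpow_neg hX0.le]
    exact Real.rpow_le_rpow_of_exponent_le hX1 (by norm_num)
  have hL7 : Q * Real.log x ^ 7 ≤ Real.log x ^ 8 := by
    calc Q * Real.log x ^ 7 ≤ Real.log x * Real.log x ^ 7 :=
          mul_le_mul_of_nonneg_right (by linarith only [hLQ]) (by positivity)
      _ = Real.log x ^ 8 := by ring
  calc _ ≤ (2 * C1 + 2) * Real.log x ^ 7 * ((x : ℝ) / k * (1 / P + 1 / s)) +
        45 * CB * √(216 * CT) * Real.log x ^ 7 * ((x : ℝ) / k * (1 / P + 1 / s)) :=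
        add_le_add f1 f2
    _ = Q * Real.log x ^ 7 * ((x : ℝ) / k * (1 / P + 1 / s)) := by rw [hQ]; ring
    _ ≤ Real.log x ^ 8 * ((x : ℝ) / k * (1 / P + (x : ℝ) ^ (-(1 / 50) : ℝ))) := by
      refine mul_le_mul hL7 ?_ (by positivity) (by positivity)
      exact mul_le_mul_of_nonneg_left (by linarith only [f3]) (by positivity)
    _ = _ := by ring

end Pool.Agent.Helper58.CG
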